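import Pool.Agent.Helper46.LS.Step

/-!
# Local search for the intersection of `k` matroids: one step of the recursion
-/

set_option autoImplicit false

namespace Pool.Agent.Helper46.LS

open Finset
open scoped Matroid

/-- `|S| > b |B|` gives an improvement of `B` by at most `s` new elements. -/
def LSProp (k : ℕ) (b : ℝ) (s : ℕ) : Prop :=
  ∀ (E : Type) [Fintype E] [DecidableEq E] (M : Fin k → Matroid E) (B S : Finset E),
    (∀ i, (M i).Indep (B : Set E)) → (∀ i, (M i).Indep (S : Set E)) →
    b * B.card < S.card →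
    ∃ X, X ⊆ S \ B ∧ X.card ≤ s ∧ ∃ B', B' ⊆ B ∪ X ∧ (∀ i, (M i).Indep (B' : Set E)) ∧
      B.card < B'.card

theorem step {k : ℕ} (hk : 2 ≤ k) {b : ℝ} (hb : 1 ≤ b) {s : ℕ} (hs : 1 ≤ s)
    (h : LSProp k b s) :
    LSProp k ((k * b - k + b) / (2 * b - 1)) ((2 * k + 1) * s) := by
  intro E _ _ M B S hB hS hlt
  by_contra hcon
  have hno : ∀ X, X ⊆ S \ B → X.card ≤ (2 * k + 1) * s → ∀ B', B' ⊆ B ∪ X →
      (∀ i, (M i).Indep (B' : Set E)) → B'.card ≤ B.card := by
    intro X hX hXc B' hB' hi
    by_contra hc
    exact hcon ⟨X, hX, hXc, B', hB', hi, not_le.1 hc⟩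
  have hkR : (2 : ℝ) ≤ k := by exact_mod_cast hk
  have h2b : 0 < 2 * b - 1 := by linarith
  have hlt' : (k * b - k + b) * B.card < (2 * b - 1) * S.card := by
    rw [div_mul_eq_mul_div, div_lt_iff₀ h2b] at hlt
    linarith
  have hb1 : (1 : ℝ) ≤ (k * b - k + b) / (2 * b - 1) := by
    rw [le_div_iff₀ h2b]
    nlinarith
  have hBS : B.card ≤ S.card := by
    have h1 : (B.card : ℝ) ≤ (k * b - k + b) / (2 * b - 1) * B.card :=
      le_mul_of_one_le_left (Nat.cast_nonneg _) hb1
    have h2 : (B.card : ℝ) < S.card := lt_of_le_of_lt h1 hlt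
    exact_mod_cast h2.le
  have hs3 : 3 ≤ (2 * k + 1) * s := by nlinarith
  have hV := fun l => ext _ B S rfl (hB l) (hS l)
  choose V hVS hVc hV using hV
  have hVc' : ∀ l, (V l).card + B.card = S.card := by
    intro l
    rw [hVc l]
    omega
  obtain ⟨Fl, hFl⟩ : ∃ Fl : Fin k → Finset E, ∀ l, Fl l = (S \ B).filter
      (fun e => e ∉ V l ∧ ∀ m, m ≠ l → e ∈ V m) := ⟨_, fun _ => rfl⟩
  have memF : ∀ l e, e ∈ Fl l ↔ e ∈ S \ B ∧ e ∉ V l ∧ ∀ m, m ≠ l → e ∈ V m := by
    intro l e
    rw [hFl, mem_filter]
  obtain ⟨F, hF⟩ : ∃ F : Finset E, F = univ.biUnion Fl := ⟨_, rfl⟩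
  have memFF : ∀ e, e ∈ F ↔ ∃ l, e ∈ Fl l := by
    intro e
    rw [hF, mem_biUnion]
    simp
  have hFd : ∀ l m, l ≠ m → Disjoint (Fl l) (Fl m) := by
    intro l m hlm
    rw [disjoint_left]
    intro e h1 h2
    exact ((memF m e).1 h2).2.1 (((memF l e).1 h1).2.2 m hlm.symm)
  have hFc : F.card = ∑ l, (Fl l).card := by
    rw [hF]
    exact card_biUnion fun l _ m _ hlm => hFd l m hlm
  have hFS : F ⊆ S \ B := by
    intro e he
    obtain ⟨l, hl⟩ := (memFF e).1 he
    exact ((memF l e).1 hl).1
  have hFlF : ∀ l, Fl l ⊆ F := fun l e he => (memFF e).2 ⟨l, he⟩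
  have hFV : ∀ l, F \ Fl l ⊆ V l := by
    intro l e he
    obtain ⟨h1, h2⟩ := mem_sdiff.1 he
    obtain ⟨m, hm⟩ := (memFF e).1 h1
    have hml : l ≠ m := by
      rintro rfl
      exact h2 hm
    exact ((memF m e).1 hm).2.2 l hml
  have hcov : ∀ e ∈ S \ B, ∃ l, e ∉ V l := by
    intro e he
    by_contra hc
    push Not at hc
    have h1 := hno {e} (singleton_subset_iff.2 he) (by rw [card_singleton]; omega) (insert e B)
      (by
        intro x hx
        rcases mem_insert.1 hx with rfl | hx
        · exact mem_union_right _ (mem_singleton_self _)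
        · exact mem_union_left _ hx)
      (fun i => (hV i).subset (coe_subset.2 (by
        intro x hx
        rcases mem_insert.1 hx with rfl | hx
        · exact mem_union_right _ (hc i)
        · exact mem_union_left _ hx)))
    rw [card_insert_of_notMem (mem_sdiff.1 he).2] at h1
    omega
  -- counting
  have hcount : 2 * (S \ B).card ≤ ∑ l : Fin k, ((S \ B) \ V l).card + F.card := by
    have h1 : ∑ l : Fin k, ((S \ B) \ V l).card =
        ∑ e ∈ S \ B, (univ.filter fun l : Fin k => e ∉ V l).card := by
      have h2 : ∀ l : Fin k, ((S \ B) \ V l).card = ∑ e ∈ S \ B, if e ∉ V l then 1 else 0 := by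
        intro l
        rw [sum_boole, ← sdiff_eq_filter]
        simp
      rw [sum_congr rfl fun l _ => h2 l, sum_comm]
      refine sum_congr rfl fun e _ => ?_
      rw [sum_boole]
      simp
    have h3 : F.card = ∑ e ∈ S \ B, if e ∈ F then 1 else 0 := by
      rw [sum_boole, filter_mem_eq_inter, inter_eq_right.2 hFS]
      simp
    rw [h1, h3, ← sum_add_distrib, mul_comm, ← smul_eq_mul, ← sum_const]
    refine sum_le_sum fun e he => ?_
    obtain ⟨l, hl⟩ := hcov e he
    by_cases h4 : ∃ m, m ≠ l ∧ e ∉ V m
    · obtain ⟨m, hm1, hm2⟩ := h4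
      have h5 : 2 ≤ (univ.filter fun l : Fin k => e ∉ V l).card := by
        have h6 : ({l, m} : Finset (Fin k)) ⊆ univ.filter fun l : Fin k => e ∉ V l := by
          intro x hx
          rw [mem_insert, mem_singleton] at hx
          rw [mem_filter]
          rcases hx with rfl | rfl
          · exact ⟨mem_univ _, hl⟩
          · exact ⟨mem_univ _, hm2⟩
        have h7 := card_le_card h6
        rw [card_pair hm1.symm] at h7
        exact h7
      omega
    · push Not at h4
      have h5 : e ∈ F := (memFF e).2 ⟨l, (memF l e).2 ⟨he, hl, h4⟩⟩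
      rw [if_pos h5]
      have h6 : 1 ≤ (univ.filter fun l : Fin k => e ∉ V l).card :=
        card_pos.2 ⟨l, mem_filter.2 ⟨mem_univ _, hl⟩⟩
      omega
  have hDl : ∀ l, ((S \ B) \ V l).card = (S \ B).card - (S.card - B.card) := by
    intro l
    rw [card_sdiff_of_subset (hVS l), hVc l]
  have hcR : 2 * (S.card : ℝ) ≤ k * B.card + F.card := by
    have h1 : (S ∩ B).card + (S \ B).card = S.card := card_inter_add_card_sdiff S B
    have h2 : (S ∩ B).card ≤ B.card := card_le_card inter_subset_right
    have h3 : (S \ B).card - (S.card - B.card) = B.card - (S ∩ B).card := by omega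
    rw [sum_congr rfl fun l _ => (hDl l).trans h3, sum_const, card_univ, Fintype.card_fin,
      smul_eq_mul] at hcount
    have h4 : (2 : ℝ) * (S \ B).card ≤ k * (B.card - (S ∩ B).card) + F.card := by
      have h5 : ((2 * (S \ B).card : ℕ) : ℝ) ≤ ((k * (B.card - (S ∩ B).card) + F.card : ℕ) : ℝ) := by
        exact_mod_cast hcount
      push_cast [Nat.cast_sub h2] at h5
      exact h5
    have h6 : ((S ∩ B).card : ℝ) + (S \ B).card = S.card := by exact_mod_cast h1
    have h7 : (0 : ℝ) ≤ (S ∩ B).card := Nat.cast_nonneg _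
    nlinarith
  -- the sets `Y`
  have hFsub : ∀ l, Fl l ⊆ (S \ B) \ V l := by
    intro l e he
    have := (memF l e).1 he
    exact mem_sdiff.2 ⟨this.1, this.2.1⟩
  have hY := fun l => pack (hS l) (hVS l) (hVc' l) (hV l) (hFsub l)
  choose Y hYS hYc hY using hY
  have hYB : ∀ l, Y l ⊆ B := fun l => (hYS l).trans sdiff_subset
  have hYd : ∀ l m, l ≠ m → Disjoint (Y l) (Y m) := by
    intro l m hlm
    rw [disjoint_left]
    intro y h1 h2
    obtain ⟨e, he, hei⟩ := swap (hVS l) (hFsub l) (hYS l) (hV l) (hYc l) (hY l) h1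
    obtain ⟨e', he', hei'⟩ := swap (hVS m) (hFsub m) (hYS m) (hV m) (hYc m) (hY m) h2
    have hyB : y ∈ B := hYB l h1
    have f1 := (memF l e).1 he
    have f2 := (memF m e').1 he'
    have heB : e ∉ B := (mem_sdiff.1 f1.1).2
    have heB' : e' ∉ B := (mem_sdiff.1 f2.1).2
    have hne : e' ≠ e := by
      rintro rfl
      exact f2.2.1 (f1.2.2 m hlm.symm)
    have h3 := hno {e, e'} (by
        intro x hx
        rw [mem_insert, mem_singleton] at hx
        rcases hx with rfl | rfl
        · exact f1.1
        · exact f2.1)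
      ((card_le_two).trans (by omega)) (insert e' (insert e (B.erase y)))
      (by
        intro x hx
        simp only [mem_insert, mem_erase, mem_union, mem_singleton] at hx ⊢
        tauto)
      (fun i => by
        by_cases hil : i = l
        · subst hil
          refine hei.subset (coe_subset.2 ?_)
          intro x hx
          have h4 := f2.2.2 i hlm
          rw [mem_insert, mem_insert, mem_erase] at hx
          rw [mem_insert, mem_erase, mem_union]
          rcases hx with rfl | rfl | hx
          · exact Or.inr ⟨fun h5 => heB' (h5 ▸ hyB), Or.inr h4⟩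
          · exact Or.inl rfl
          · exact Or.inr ⟨hx.1, Or.inl hx.2⟩
        · by_cases him : i = m
          · subst him
            refine hei'.subset (coe_subset.2 ?_)
            intro x hx
            have h4 := f1.2.2 i hlm.symm
            rw [mem_insert, mem_insert, mem_erase] at hx
            rw [mem_insert, mem_erase, mem_union]
            rcases hx with rfl | rfl | hx
            · exact Or.inl rfl
            · exact Or.inr ⟨fun h5 => heB (h5 ▸ hyB), Or.inr h4⟩
            · exact Or.inr ⟨hx.1, Or.inl hx.2⟩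
          · refine (hV i).subset (coe_subset.2 ?_)
            intro x hx
            rw [mem_insert, mem_insert, mem_erase] at hx
            rw [mem_union]
            rcases hx with rfl | rfl | hx
            · exact Or.inr (f2.2.2 i him)
            · exact Or.inr (f1.2.2 i hil)
            · exact Or.inl hx.2)
    rw [card_insert_of_notMem, card_insert_of_notMem, card_erase_of_mem hyB] at h3
    · have : 0 < B.card := card_pos.2 ⟨y, hyB⟩
      omega
    · exact fun h4 => heB (mem_of_mem_erase h4)
    · intro h4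
      rcases mem_insert.1 h4 with h5 | h5
      · exact hne h5
      · exact heB' (mem_of_mem_erase h5)
  obtain ⟨YY, hYY⟩ : ∃ YY : Finset E, YY = univ.biUnion Y := ⟨_, rfl⟩
  have memY : ∀ e, e ∈ YY ↔ ∃ l, e ∈ Y l := by
    intro e
    rw [hYY, mem_biUnion]
    simp
  have hYYc : YY.card = F.card := by
    rw [hYY, hFc, card_biUnion fun l _ m _ hlm => hYd l m hlm]
    exact sum_congr rfl fun l _ => hYc l
  have hYYB : YY ⊆ B := by
    intro e he
    obtain ⟨l, hl⟩ := (memY e).1 he
    exact hYB l hl
  have hYYS : ∀ e ∈ YY, e ∉ S := by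
    intro e he
    obtain ⟨l, hl⟩ := (memY e).1 he
    exact (mem_sdiff.1 (hYS l hl)).2
  have hFB : Disjoint F B := by
    rw [disjoint_left]
    intro e h1 h2
    exact (mem_sdiff.1 (hFS h1)).2 h2
  have hFi : ∀ l, (M l).Indep (F : Set E) := fun l =>
    (hS l).subset (coe_subset.2 (hFS.trans sdiff_subset))
  have hN : ∀ l (I : Finset E), ((M l) ／ (F : Set E)).Indep (I : Set E) ↔
      Disjoint I F ∧ (M l).Indep ((I ∪ F : Finset E) : Set E) := by
    intro l I
    rw [(hFi l).contract_indep_iff, disjoint_coe, coe_union]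
  have key : ((S \ F).card : ℝ) ≤ b * (B \ YY).card := by
    by_contra hgt
    push Not at hgt
    obtain ⟨X, hX, hXs, B2, hB2, hBi, hBc⟩ := h E (fun l => (M l) ／ (F : Set E)) (B \ YY) (S \ F)
      (fun l => by
        rw [hN]
        refine ⟨(hFB.mono_right sdiff_subset).symm, (hY l).subset (coe_subset.2 ?_)⟩
        intro x hx
        have h1 := @hFV l x
        have h2 : x ∈ Y l → x ∈ YY := fun h => (memY x).2 ⟨l, h⟩
        simp only [mem_union, mem_sdiff] at hx h1 ⊢
        tauto)
      (fun l => by
        rw [hN]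
        refine ⟨disjoint_sdiff.symm, (hS l).subset (coe_subset.2 ?_)⟩
        intro x hx
        rcases mem_union.1 hx with h1 | h1
        · exact (mem_sdiff.1 h1).1
        · exact (mem_sdiff.1 (hFS h1)).1) hgt
    obtain ⟨X0, hX0⟩ : ∃ X0, X0 = B2 \ (B \ YY) := ⟨_, rfl⟩
    obtain ⟨W, hW⟩ : ∃ W, W = (B \ YY) \ B2 := ⟨_, rfl⟩
    have hX0X : X0 ⊆ X := by
      intro x hx
      rw [hX0, mem_sdiff] at hx
      rcases mem_union.1 (hB2 hx.1) with h1 | h1
      · exact absurd h1 hx.2
      · exact h1
    have hX0s : X0.card ≤ s := (card_le_card hX0X).trans hXs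
    have hX0S : ∀ x ∈ X0, x ∈ S ∧ x ∉ F := by
      intro x hx
      have := (mem_sdiff.1 (hX (hX0X hx))).1
      exact mem_sdiff.1 this
    have hXB : Disjoint X0 B := by
      rw [disjoint_left]
      intro x h1 h2
      have h3 := (mem_sdiff.1 (hX (hX0X h1))).2
      have h4 : x ∈ YY := by
        by_contra h5
        exact h3 (mem_sdiff.2 ⟨h2, h5⟩)
      exact hYYS x h4 (hX0S x h1).1
    have hXF : Disjoint X0 F := by
      rw [disjoint_left]
      intro x h1 h2
      exact (hX0S x h1).2 h2
    have hWB : W ⊆ B := by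
      rw [hW]
      exact sdiff_subset.trans sdiff_subset
    have hYW : Disjoint YY W := by
      rw [disjoint_left]
      intro x h1 h2
      rw [hW, mem_sdiff, mem_sdiff] at h2
      exact h2.1.2 h1
    have hXW : W.card < X0.card := by
      have c1 := card_inter_add_card_sdiff (B \ YY) B2
      have c2 := card_inter_add_card_sdiff B2 (B \ YY)
      rw [inter_comm] at c2
      rw [hX0, hW]
      omega
    have hB2F : ∀ l, (M l).Indep ((B2 ∪ F : Finset E) : Set E) := fun l => ((hN l B2).1 (hBi l)).2
    have hR := fun l => lift (M := M l) (G := F \ Fl l) hYYB hWB hYW hXB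
      (hXF.mono_right sdiff_subset) (hFB.mono_left sdiff_subset)
      ((hV l).subset (coe_subset.2 (union_subset_union_right (hFV l))))
      ((hB2F l).subset (coe_subset.2 (by
        intro x hx
        rw [hW, hX0] at hx
        simp only [mem_union, mem_sdiff] at hx ⊢
        tauto)))
    choose R hRY hRc hR using hR
    have hYYl : ∀ l, YY \ Y l ⊆ B \ Y l := fun l => sdiff_subset_sdiff hYYB (Subset.refl _)
    have hYlYY : ∀ l, Y l ⊆ YY := fun l e he => (memY e).2 ⟨l, he⟩
    have hR' := fun l => lift (M := M l) (B := B \ Y l) (Y := YY \ Y l) (W := W) (X := X0) (G := F)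
      (hYYl l) (by
        intro x hx
        exact mem_sdiff.2 ⟨hWB hx, fun h1 => disjoint_left.1 hYW (hYlYY l h1) hx⟩)
      (hYW.mono_left sdiff_subset) (hXB.mono_right sdiff_subset) hXF
      (hFB.mono_right sdiff_subset)
      ((hY l).subset (coe_subset.2 (by
        intro x hx
        have h1 := @hFV l x
        simp only [mem_union, mem_sdiff] at hx h1 ⊢
        tauto)))
      ((hB2F l).subset (coe_subset.2 (by
        intro x hx
        rw [hW, hX0] at hx
        simp only [mem_union, mem_sdiff] at hx ⊢
        tauto)))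
    choose R' hRY' hRc' hR' using hR'
    obtain ⟨Z, hZ⟩ : ∃ Z : Finset E, Z = univ.biUnion fun l => R l ∪ R' l := ⟨_, rfl⟩
    have hRZ : ∀ l, R l ⊆ Z := fun l e he => by
      rw [hZ, mem_biUnion]
      exact ⟨l, mem_univ _, mem_union_left _ he⟩
    have hRZ' : ∀ l, R' l ⊆ Z := fun l e he => by
      rw [hZ, mem_biUnion]
      exact ⟨l, mem_univ _, mem_union_right _ he⟩
    have hZY : Z ⊆ YY := by
      intro e he
      rw [hZ, mem_biUnion] at he
      obtain ⟨l, -, hl⟩ := he
      rcases mem_union.1 hl with h1 | h1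
      · exact hRY l h1
      · exact (mem_sdiff.1 (hRY' l h1)).1
    have hZc : Z.card ≤ 2 * k * X0.card := by
      rw [hZ]
      refine card_biUnion_le.trans ?_
      calc ∑ l : Fin k, (R l ∪ R' l).card ≤ ∑ _l : Fin k, 2 * X0.card := by
            refine sum_le_sum fun l _ => (card_union_le _ _).trans ?_
            have := hRc l
            have := hRc' l
            omega
        _ = 2 * k * X0.card := by
            rw [sum_const, card_univ, Fintype.card_fin, smul_eq_mul]
            ring
    have hX' := fun l => fin_ext (M := M l) (B := B) (W := W) (Y' := Z) (Yl := Y l) (X := X0)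
      (F := F) (Fl := Fl l) (hYB l) (hYW.mono_left (hYlYY l)) hXB hXF hFB (hFlF l) (hYc l)
      ((hR l).subset (coe_subset.2 (by
        intro x hx
        have h1 := @hRZ l x
        simp only [mem_union, mem_sdiff] at hx ⊢
        tauto)))
      ((hR' l).subset (coe_subset.2 (by
        intro x hx
        have h1 := @hRZ' l x
        simp only [mem_union, mem_sdiff] at hx ⊢
        tauto)))
    choose X' hXFl hXc' hX' using hX'
    obtain ⟨XX, hXX⟩ : ∃ XX : Finset E, XX = univ.biUnion X' := ⟨_, rfl⟩
    have memX : ∀ e, e ∈ XX ↔ ∃ l, e ∈ X' l := by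
      intro e
      rw [hXX, mem_biUnion]
      simp
    have hXXF : XX ⊆ F := by
      intro e he
      obtain ⟨l, hl⟩ := (memX e).1 he
      exact hFlF l (hXFl l hl)
    have hXXc : XX.card = Z.card := by
      rw [hXX, card_biUnion fun l _ m _ hlm =>
        (hFd l m hlm).mono (hXFl l) (hXFl m), sum_congr rfl fun l _ => hXc' l]
      rw [← card_biUnion fun l _ m _ hlm =>
        (hYd l m hlm).mono inter_subset_right inter_subset_right]
      congr 1
      ext e
      rw [mem_biUnion]
      constructor
      · rintro ⟨l, -, hl⟩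
        exact (mem_inter.1 hl).1
      · intro he
        obtain ⟨l, hl⟩ := (memY e).1 (hZY he)
        exact ⟨l, mem_univ _, mem_inter.2 ⟨he, hl⟩⟩
    have hfin := hno (X0 ∪ XX) (by
        intro x hx
        rcases mem_union.1 hx with h1 | h1
        · exact mem_sdiff.2 ⟨(hX0S x h1).1, fun h2 => disjoint_left.1 hXB h1 h2⟩
        · exact hFS (hXXF h1))
      (by
        refine (card_union_le _ _).trans ?_
        rw [hXXc]
        calc X0.card + Z.card ≤ (2 * k + 1) * X0.card := by
              have : (2 * k + 1) * X0.card = 2 * k * X0.card + X0.card := by ring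
              omega
          _ ≤ (2 * k + 1) * s := Nat.mul_le_mul_left _ hX0s)
      (((B \ W) \ Z) ∪ (X0 ∪ XX))
      (by
        intro x hx
        rw [mem_union] at hx ⊢
        rcases hx with h1 | h1
        · exact Or.inl (mem_sdiff.1 (mem_sdiff.1 h1).1).1
        · exact Or.inr h1)
      (fun l => (hX' l).subset (coe_subset.2 (by
        intro x hx
        have h1 : x ∈ XX → x ∈ F \ Fl l ∨ x ∈ X' l := by
          intro h2
          obtain ⟨m, hm⟩ := (memX x).1 h2
          by_cases hml : m = l
          · exact Or.inr (hml ▸ hm)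
          · left
            exact mem_sdiff.2 ⟨hXXF h2, fun h3 =>
              disjoint_left.1 (hFd m l hml) (hXFl m hm) h3⟩
        simp only [mem_union] at hx ⊢
        tauto)))
    have c1 : ((B \ W) \ Z).card + W.card + Z.card = B.card := by
      have e1 : Z ⊆ B \ W := by
        intro x hx
        exact mem_sdiff.2 ⟨hYYB (hZY hx), fun h1 => disjoint_left.1 hYW (hZY hx) h1⟩
      have e2 := card_sdiff_add_card_eq_card e1
      have e3 := card_sdiff_add_card_eq_card hWB
      omega
    have d1 : Disjoint X0 XX := hXF.mono_right hXXF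
    have d2 : Disjoint ((B \ W) \ Z) (X0 ∪ XX) := by
      rw [disjoint_union_right]
      exact ⟨(hXB.mono_right (sdiff_subset.trans sdiff_subset)).symm,
        (hFB.mono hXXF (sdiff_subset.trans sdiff_subset)).symm⟩
    rw [card_union_of_disjoint d2, card_union_of_disjoint d1, hXXc] at hfin
    omega
  -- arithmetic
  have e1 : (S \ F).card = S.card - F.card := card_sdiff_of_subset (hFS.trans sdiff_subset)
  have e2 : (B \ YY).card = B.card - F.card := by rw [card_sdiff_of_subset hYYB, hYYc]
  have e3 : F.card ≤ S.card := card_le_card (hFS.trans sdiff_subset)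
  have e4 : F.card ≤ B.card := by rw [← hYYc]; exact card_le_card hYYB
  rw [e1, e2, Nat.cast_sub e3, Nat.cast_sub e4] at key
  nlinarith

end Pool.Agent.Helper46.LS
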