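import Mathlib

/-!
# Local search for the intersection of `k` matroids: lemmas for one matroid
-/

set_option autoImplicit false

namespace Pool.Agent.Helper46.LS

open Finset

variable {E : Type} [DecidableEq E]

theorem ext {M : Matroid E} : ∀ (n : ℕ) (I J : Finset E), J.card - I.card = n →
    M.Indep (I : Set E) → M.Indep (J : Set E) →
    ∃ K ⊆ J \ I, K.card = n ∧ M.Indep ((I ∪ K : Finset E) : Set E) := by
  intro n
  induction n with
  | zero =>
    intro I J h hI hJ
    exact ⟨∅, by simp, by simp, by simpa using hI⟩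
  | succ n ih =>
    intro I J h hI hJ
    have hlt : I.card < J.card := by omega
    obtain ⟨e, he, hei⟩ := hI.augment hJ (by
      rw [Set.encard_coe_eq_coe_finsetCard, Set.encard_coe_eq_coe_finsetCard]
      exact_mod_cast hlt)
    have heI : e ∉ I := fun h => he.2 (Finset.mem_coe.2 h)
    have heJ : e ∈ J := Finset.mem_coe.1 he.1
    obtain ⟨K, hK1, hK2, hK3⟩ := ih (insert e I) J (by
      rw [card_insert_of_notMem heI]
      omega) (by rw [coe_insert]; exact hei) hJ
    have heK : e ∉ K := fun h => (mem_sdiff.1 (hK1 h)).2 (mem_insert_self e I)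
    refine ⟨insert e K, ?_, ?_, ?_⟩
    · intro x hx
      rcases mem_insert.1 hx with rfl | hx
      · exact mem_sdiff.2 ⟨heJ, heI⟩
      · have := mem_sdiff.1 (hK1 hx)
        exact mem_sdiff.2 ⟨this.1, fun h => this.2 (mem_insert_of_mem h)⟩
    · rw [card_insert_of_notMem heK, hK2]
    · refine hK3.subset (coe_subset.2 ?_)
      intro x hx
      simp only [mem_union, mem_insert] at hx ⊢
      tauto

/-- The sets `Y_l`. -/
theorem pack {M : Matroid E} {B S V F : Finset E} (hS : M.Indep (S : Set E))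
    (hVS : V ⊆ S \ B) (hVc : V.card + B.card = S.card)
    (hV : M.Indep ((B ∪ V : Finset E) : Set E)) (hF : F ⊆ (S \ B) \ V) :
    ∃ Y ⊆ B \ S, Y.card = F.card ∧ M.Indep (((B \ Y) ∪ V ∪ F : Finset E) : Set E) := by
  have hVB : Disjoint B V := by
    rw [disjoint_left]
    intro x h1 h2
    exact (mem_sdiff.1 (hVS h2)).2 h1
  have hI : M.Indep ((V ∪ F ∪ (B ∩ S) : Finset E) : Set E) := by
    refine hS.subset (coe_subset.2 ?_)
    intro x hx
    simp only [mem_union, mem_inter] at hx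
    rcases hx with (h | h) | h
    · exact (mem_sdiff.1 (hVS h)).1
    · exact (mem_sdiff.1 (mem_sdiff.1 (hF h)).1).1
    · exact h.2
  have hVF : Disjoint V F := by
    rw [disjoint_left]
    intro x h1 h2
    exact (mem_sdiff.1 (hF h2)).2 h1
  have hVFB : Disjoint (V ∪ F) (B ∩ S) := by
    rw [disjoint_left]
    intro x h1 h2
    rcases mem_union.1 h1 with h | h
    · exact (mem_sdiff.1 (hVS h)).2 (mem_inter.1 h2).1
    · exact (mem_sdiff.1 (mem_sdiff.1 (hF h)).1).2 (mem_inter.1 h2).1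
  have c1 : (V ∪ F ∪ (B ∩ S)).card = V.card + F.card + (B ∩ S).card := by
    rw [card_union_of_disjoint hVFB, card_union_of_disjoint hVF]
  have c2 : (B ∪ V).card = B.card + V.card := card_union_of_disjoint hVB
  have c3 : (B ∩ S).card + (B \ S).card = B.card := card_inter_add_card_sdiff B S
  have c4 : (V ∪ F ∪ (B ∩ S)).card ≤ S.card := by
    refine card_le_card ?_
    intro x hx
    simp only [mem_union, mem_inter] at hx
    rcases hx with (h | h) | h
    · exact (mem_sdiff.1 (hVS h)).1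
    · exact (mem_sdiff.1 (mem_sdiff.1 (hF h)).1).1
    · exact h.2
  obtain ⟨K, hK1, hK2, hK3⟩ := ext _ (V ∪ F ∪ (B ∩ S)) (B ∪ V) rfl hI hV
  have hKB : K ⊆ B \ S := by
    intro x hx
    have h1 := mem_sdiff.1 (hK1 hx)
    simp only [mem_union, mem_inter, not_or, not_and] at h1
    rcases h1.1 with h | h
    · exact mem_sdiff.2 ⟨h, h1.2.2 h⟩
    · exact absurd h h1.2.1.1
  refine ⟨(B \ S) \ K, sdiff_subset, ?_, ?_⟩
  · rw [card_sdiff_of_subset hKB, hK2, c1, c2]
    omega
  · refine hK3.subset (coe_subset.2 ?_)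
    intro x hx
    simp only [mem_union, mem_sdiff, mem_inter] at hx ⊢
    tauto

theorem swap {M : Matroid E} {B S V F Y : Finset E}
    (hVS : V ⊆ S \ B) (hF : F ⊆ (S \ B) \ V) (hY : Y ⊆ B \ S)
    (hV : M.Indep ((B ∪ V : Finset E) : Set E)) (hc : Y.card = F.card)
    (h : M.Indep (((B \ Y) ∪ V ∪ F : Finset E) : Set E)) {y : E} (hy : y ∈ Y) :
    ∃ e ∈ F, M.Indep ((insert e ((B ∪ V).erase y) : Finset E) : Set E) := by
  have hyB : y ∈ B := (mem_sdiff.1 (hY hy)).1
  have hVB : Disjoint B V := by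
    rw [disjoint_left]
    intro x h1 h2
    exact (mem_sdiff.1 (hVS h2)).2 h1
  have d1 : Disjoint (B \ Y) V := hVB.mono_left sdiff_subset
  have d2 : Disjoint ((B \ Y) ∪ V) F := by
    rw [disjoint_left]
    intro x h1 h2
    have h3 := mem_sdiff.1 (hF h2)
    rcases mem_union.1 h1 with h4 | h4
    · exact (mem_sdiff.1 h3.1).2 (mem_sdiff.1 h4).1
    · exact h3.2 h4
  have c1 : ((B \ Y) ∪ V ∪ F).card = B.card - Y.card + V.card + F.card := by
    rw [card_union_of_disjoint d2, card_union_of_disjoint d1,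
      card_sdiff_of_subset (hY.trans sdiff_subset)]
  have c2 : ((B ∪ V).erase y).card = B.card + V.card - 1 := by
    rw [card_erase_of_mem (mem_union_left _ hyB), card_union_of_disjoint hVB]
  have c3 : Y.card ≤ B.card := card_le_card (hY.trans sdiff_subset)
  have c4 : 0 < B.card := card_pos.2 ⟨y, hyB⟩
  have hi : M.Indep (((B ∪ V).erase y : Finset E) : Set E) :=
    hV.subset (coe_subset.2 (erase_subset _ _))
  obtain ⟨e, he, hei⟩ := hi.augment h (by
    rw [Set.encard_coe_eq_coe_finsetCard, Set.encard_coe_eq_coe_finsetCard]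
    have : ((B ∪ V).erase y).card < ((B \ Y) ∪ V ∪ F).card := by
      rw [c1, c2]
      omega
    exact_mod_cast this)
  refine ⟨e, ?_, by rw [coe_insert]; exact hei⟩
  have h1 : e ∈ (B \ Y) ∪ V ∪ F := Finset.mem_coe.1 he.1
  have h2 : e ∉ (B ∪ V).erase y := fun h => he.2 (Finset.mem_coe.2 h)
  by_contra hcon
  apply h2
  rw [mem_erase]
  simp only [mem_union, mem_sdiff] at h1
  rcases h1 with (h3 | h3) | h3
  · exact ⟨fun h4 => h3.2 (h4 ▸ hy), mem_union_left _ h3.1⟩
  · exact ⟨fun h4 => (mem_sdiff.1 (hVS h3)).2 (h4 ▸ hyB), mem_union_right _ h3⟩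
  · exact absurd h3 hcon

theorem lift {M : Matroid E} {B Y W X G : Finset E} (hYB : Y ⊆ B) (hWB : W ⊆ B)
    (hYW : Disjoint Y W) (hXB : Disjoint X B) (hXG : Disjoint X G) (hGB : Disjoint G B)
    (h1 : M.Indep ((B ∪ G : Finset E) : Set E))
    (h2 : M.Indep (((B \ (Y ∪ W)) ∪ X ∪ G : Finset E) : Set E)) :
    ∃ R ⊆ Y, R.card ≤ X.card ∧ M.Indep ((((B \ W) \ R) ∪ X ∪ G : Finset E) : Set E) := by
  have hJ : M.Indep (((B \ W) ∪ G : Finset E) : Set E) :=
    h1.subset (coe_subset.2 (union_subset_union_left sdiff_subset))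
  obtain ⟨K, hK1, hK2, hK3⟩ := ext _ ((B \ (Y ∪ W)) ∪ X ∪ G) ((B \ W) ∪ G) rfl h2 hJ
  have d1 : Disjoint (B \ W) G := (hGB.mono_right sdiff_subset).symm
  have d2 : Disjoint (B \ (Y ∪ W)) X := (hXB.mono_right sdiff_subset).symm
  have d3 : Disjoint ((B \ (Y ∪ W)) ∪ X) G := by
    rw [disjoint_union_left]
    exact ⟨(hGB.mono_right sdiff_subset).symm, hXG⟩
  have c1 : ((B \ W) ∪ G).card = (B \ W).card + G.card := card_union_of_disjoint d1
  have c2 : ((B \ (Y ∪ W)) ∪ X ∪ G).card = (B \ (Y ∪ W)).card + X.card + G.card := by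
    rw [card_union_of_disjoint d3, card_union_of_disjoint d2]
  have c3 : (B \ W).card = (B \ (Y ∪ W)).card + Y.card := by
    rw [← card_union_of_disjoint]
    · congr 1
      ext x
      have := @hYB x
      have h3 : x ∈ Y → x ∉ W := fun h => disjoint_left.1 hYW h
      simp only [mem_union, mem_sdiff]
      tauto
    · rw [disjoint_left]
      intro x h3 h4
      simp only [mem_union, mem_sdiff] at h3
      exact h3.2 (Or.inl h4)
  have hKY : K ⊆ Y := by
    intro x hx
    have h3 := mem_sdiff.1 (hK1 hx)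
    simp only [mem_union, mem_sdiff] at h3
    tauto
  refine ⟨Y \ K, sdiff_subset, ?_, ?_⟩
  · rw [card_sdiff_of_subset hKY]
    omega
  · refine hK3.subset (coe_subset.2 ?_)
    intro x hx
    simp only [mem_union, mem_sdiff] at hx ⊢
    tauto

theorem fin_ext {M : Matroid E} {B W Y' Yl X F Fl : Finset E} (hYB : Yl ⊆ B)
    (hYW : Disjoint Yl W) (hXB : Disjoint X B) (hXF : Disjoint X F) (hFB : Disjoint F B)
    (hFl : Fl ⊆ F) (hc : Yl.card = Fl.card)
    (h1 : M.Indep ((((B \ W) \ Y') ∪ X ∪ (F \ Fl) : Finset E) : Set E))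
    (h2 : M.Indep (((((B \ Yl) \ W) \ Y') ∪ X ∪ F : Finset E) : Set E)) :
    ∃ X' ⊆ Fl, X'.card = (Y' ∩ Yl).card ∧
      M.Indep ((((B \ W) \ Y') ∪ X ∪ (F \ Fl) ∪ X' : Finset E) : Set E) := by
  obtain ⟨K, hK1, hK2, hK3⟩ := ext _ _ _ rfl h1 h2
  have d1 : Disjoint ((B \ W) \ Y') X := (hXB.mono_right (sdiff_subset.trans sdiff_subset)).symm
  have d2 : Disjoint (((B \ W) \ Y') ∪ X) (F \ Fl) := by
    rw [disjoint_union_left]
    exact ⟨(hFB.mono sdiff_subset (sdiff_subset.trans sdiff_subset)).symm,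
      hXF.mono_right sdiff_subset⟩
  have d3 : Disjoint (((B \ Yl) \ W) \ Y') X :=
    (hXB.mono_right (sdiff_subset.trans (sdiff_subset.trans sdiff_subset))).symm
  have d4 : Disjoint ((((B \ Yl) \ W) \ Y') ∪ X) F := by
    rw [disjoint_union_left]
    exact ⟨(hFB.mono_right (sdiff_subset.trans (sdiff_subset.trans sdiff_subset))).symm, hXF⟩
  have c1 : (((B \ W) \ Y') ∪ X ∪ (F \ Fl)).card =
      ((B \ W) \ Y').card + X.card + (F \ Fl).card := by
    rw [card_union_of_disjoint d2, card_union_of_disjoint d1]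
  have c2 : ((((B \ Yl) \ W) \ Y') ∪ X ∪ F).card =
      (((B \ Yl) \ W) \ Y').card + X.card + F.card := by
    rw [card_union_of_disjoint d4, card_union_of_disjoint d3]
  have c3 : ((B \ W) \ Y').card = (((B \ Yl) \ W) \ Y').card + (Yl \ Y').card := by
    rw [← card_union_of_disjoint]
    · congr 1
      ext x
      have := @hYB x
      have h3 : x ∈ Yl → x ∉ W := fun h => disjoint_left.1 hYW h
      simp only [mem_union, mem_sdiff]
      tauto
    · rw [disjoint_left]
      intro x h3 h4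
      simp only [mem_sdiff] at h3 h4
      exact h3.1.1.2 h4.1
  have c4 : (F \ Fl).card = F.card - Fl.card := card_sdiff_of_subset hFl
  have c5 : Fl.card ≤ F.card := card_le_card hFl
  have c6 : (Yl ∩ Y').card + (Yl \ Y').card = Yl.card := card_inter_add_card_sdiff Yl Y'
  rw [inter_comm] at c6
  refine ⟨K, ?_, ?_, hK3⟩
  · intro x hx
    have h3 := mem_sdiff.1 (hK1 hx)
    simp only [mem_union, mem_sdiff] at h3
    tauto
  · rw [hK2]
    omega

end Pool.Agent.Helper46.LS
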